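import Pool.Agent.H77.GR.Stm
import Pool.Agent.H27.TF.Sai

/-!
# Project GR (helper77), module EXB (helper27)
-/

set_option autoImplicit false

open MvPolynomial Module Pool.Agent.H77.TF

namespace Pool.Agent.H27.GR

open Pool.Agent.H77.GR

variable {K : Type} [Field K]

/-- the restriction of a linear form -/
def dl (a : Fin 3 → K) (j₀ : Fin 3) (b : Fin 3 → K) : Fin 2 → K :=
  fun i => b (j₀.succAbove i) - b j₀ * (a j₀)⁻¹ * a (j₀.succAbove i)

theorem rho_lin {a : Fin 3 → K} {j₀ : Fin 3}
    {ρ : MvPolynomial (Fin 3) K →ₐ[K] MvPolynomial (Fin 2) K} (ha : a j₀ ≠ 0)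
    (h1 : ∀ i, ρ (X (j₀.succAbove i)) = X i) (h2 : ρ (lin a) = 0) (b : Fin 3 → K) :
    ρ (lin b) = lin (dl a j₀ b) := by
  have e : ∀ b : Fin 3 → K, ρ (lin b) = C (b j₀) * ρ (X j₀) +
      ∑ i : Fin 2, C (b (j₀.succAbove i)) * X i := by
    intro b
    unfold lin
    rw [Fin.sum_univ_succAbove _ j₀, map_add, map_mul, map_sum]
    have hC : ∀ c : K, ρ (C c) = C c := fun c => by
      rw [← algebraMap_eq, ← algebraMap_eq, AlgHom.commutes]
    rw [hC]
    congr 1
    refine Finset.sum_congr rfl fun i _ => ?_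
    rw [map_mul, hC, h1]
  have e0 := e a
  rw [h2] at e0
  have hu : (C (a j₀)⁻¹ : MvPolynomial (Fin 2) K) * C (a j₀) = 1 := by
    rw [← C_mul, inv_mul_cancel₀ ha, C_1]
  have e1 : ρ (X j₀) = - (C (a j₀)⁻¹ * ∑ i : Fin 2, C (a (j₀.succAbove i)) * X i) := by
    calc ρ (X j₀) = (C (a j₀)⁻¹ * C (a j₀)) * ρ (X j₀) := by rw [hu, one_mul]
      _ = C (a j₀)⁻¹ * (C (a j₀) * ρ (X j₀)) := by ring
      _ = C (a j₀)⁻¹ * (0 - ∑ i : Fin 2, C (a (j₀.succAbove i)) * X i) := by
          rw [e0]; ring
      _ = _ := by ring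
  rw [e b, e1]
  unfold lin dl
  simp only [Fin.sum_univ_two, C_sub, C_mul]
  ring

theorem lin_add (b b' : Fin 3 → K) : lin (b + b') = lin b + lin b' := by
  simp [lin, add_mul, Finset.sum_add_distrib]

theorem lin_smul (s : K) (b : Fin 3 → K) : lin (s • b) = C s * lin b := by
  simp only [lin, Pi.smul_apply, smul_eq_mul, C_mul, Finset.mul_sum]
  exact Finset.sum_congr rfl fun j _ => by ring

theorem evl_add (b b' : Fin 3 → K) (v : Fin 3 → MvPolynomial (Fin 3) K) :
    evl (b + b') v = evl b v + evl b' v := by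
  simp [evl, add_mul, Finset.sum_add_distrib]

theorem evl_smul (s : K) (b : Fin 3 → K) (v : Fin 3 → MvPolynomial (Fin 3) K) :
    evl (s • b) v = C s * evl b v := by
  simp only [evl, Pi.smul_apply, smul_eq_mul, C_mul, Finset.mul_sum]
  exact Finset.sum_congr rfl fun j _ => by ring

theorem dl_sub (a : Fin 3 → K) (j₀ : Fin 3) (b b' : Fin 3 → K) (κ : K) :
    dl a j₀ (b' - κ • b) = dl a j₀ b' - κ • dl a j₀ b := by
  funext i
  simp only [dl, Pi.sub_apply, Pi.smul_apply, smul_eq_mul]
  ring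

theorem exb (hP : S_PRI) : S_EXB := by
  classical
  intro K _ n A a j₀ ρ c hA ha hna h1 h2 h3 hex huniq v hv
  have hρ := fun b => rho_lin ha h1 h2 b
  have ha0 : a ≠ 0 := fun h => ha (by rw [h]; rfl)
  -- linear forms killed by `ρ`
  have hker : ∀ b : Fin 3 → K, dl a j₀ b = 0 → ∃ t : K, b = t • a := by
    intro b hb
    have h4 : ρ (lin b) = 0 := by rw [hρ, hb]; simp [lin]
    exact (hP K 3 a ha0).2 b (h3 _ h4)
  have hdl0 : ∀ i, dl a j₀ (A i) ≠ 0 := by
    intro i h
    obtain ⟨t, ht⟩ := hker _ h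
    exact hna i t ht
  choose r hrc hr using hex
  have hrs : ∀ i ∈ c, r i = i := fun i hi => (huniq i hi (r i) (hrc i) (hr i)).symm
  -- coordinates
  have hco : ∀ i, ∃ s t : K, s ≠ 0 ∧ A i = s • A (r i) + t • a := by
    intro i
    obtain ⟨t, s, h4⟩ := Submodule.mem_span_pair.1 (hr i)
    refine ⟨s, t, ?_, by rw [← h4, add_comm]⟩
    rintro rfl
    rw [zero_smul, add_zero] at h4
    exact hna i t h4.symm
  have hinv : ∀ i, A (r i) ∈ Submodule.span K {a, A i} := by
    intro i
    obtain ⟨s, t, hs, h4⟩ := hco i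
    refine Submodule.mem_span_pair.2 ⟨- (s⁻¹ * t), s⁻¹, ?_⟩
    rw [h4, smul_add, smul_smul, smul_smul, inv_mul_cancel₀ hs, one_smul, neg_smul]
    abel
  have hprime : ∀ i, Prime (ρ (lin (A i))) := by
    intro i
    rw [hρ]
    exact (hP K 2 _ (hdl0 i)).1
  have hrel : ∀ i i', r i ≠ r i' → IsRelPrime (ρ (lin (A i))) (ρ (lin (A i'))) := by
    intro i i' hne
    rw [(hprime i).irreducible.isRelPrime_iff_not_dvd]
    intro hd
    rw [hρ, hρ] at hd
    obtain ⟨κ, hκ⟩ := (hP K 2 _ (hdl0 i)).2 _ hd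
    have h4 : dl a j₀ (A i' - κ • A i) = 0 := by rw [dl_sub, hκ, sub_self]
    obtain ⟨t, ht⟩ := hker _ h4
    have h5 : A i' ∈ Submodule.span K {a, A i} := by
      refine Submodule.mem_span_pair.2 ⟨t, κ, ?_⟩
      rw [← ht]
      abel
    -- all in the span of `a` and `A (r i)`
    have h6 : ∀ x ∈ Submodule.span K {a, A i}, x ∈ Submodule.span K {a, A (r i)} := by
      intro x hx
      refine Submodule.span_le.2 ?_ hx
      rintro y (rfl | rfl)
      · exact Submodule.subset_span (by simp)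
      · exact hr i
    have h7 : A (r i') ∈ Submodule.span K {a, A (r i)} := by
      have h8 : ∀ x ∈ Submodule.span K {a, A i'}, x ∈ Submodule.span K {a, A (r i)} := by
        intro x hx
        refine Submodule.span_le.2 ?_ hx
        rintro y (rfl | rfl)
        · exact Submodule.subset_span (by simp)
        · exact h6 _ h5
      exact h8 _ (hinv i')
    exact hne (huniq _ (hrc i') _ (hrc i) h7).symm
  -- the fibres
  have hfib : ∀ j ∈ c, (∏ i ∈ cᶜ with r i = j, ρ (lin (A i))) ∣ ρ (evl a v) := by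
    intro j hj
    set T := (cᶜ.filter fun i => r i = j) with hT
    have hjT : j ∉ T := by
      intro h
      rw [hT, Finset.mem_filter, Finset.mem_compl] at h
      exact h.1 hj
    have h4 : ∏ i ∈ insert j T, lin (A i) ∣ lin (A j) * evl a v - lin a * evl (A j) v := by
      refine Pool.Agent.H27.TF.prod_dvd hP hA _ fun i hi => ?_
      have hi' : r i = j := by
        rcases Finset.mem_insert.1 hi with h | h
        · rw [h]; exact hrs j hj
        · exact (Finset.mem_filter.1 h).2
      obtain ⟨s, t, hs, h5⟩ := hco i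
      rw [hi'] at h5
      have h6 : lin (A i) = C s * lin (A j) + C t * lin a := by
        conv_lhs => rw [h5]
        rw [lin_add, lin_smul, lin_smul]
      have h7 : evl (A i) v = C s * evl (A j) v + C t * evl a v := by
        conv_lhs => rw [h5]
        rw [evl_add, evl_smul, evl_smul]
      have h8 : lin (A i) ∣ C s * (lin (A j) * evl a v - lin a * evl (A j) v) := by
        have h9 : C s * (lin (A j) * evl a v - lin a * evl (A j) v) =
            lin (A i) * evl a v - lin a * evl (A i) v := by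
          rw [h7]
          conv_rhs => rw [h6]
          ring
        rw [h9]
        exact dvd_sub (dvd_mul_right _ _) (dvd_mul_of_dvd_right (hv i) _)
      have hu : IsUnit (C s : MvPolynomial (Fin 3) K) := (isUnit_iff_ne_zero.2 hs).map C
      exact (hu.dvd_mul_left).1 h8
    have h5 := map_dvd ρ h4
    rw [map_prod, map_sub, map_mul, map_mul, h2, zero_mul, sub_zero, Finset.prod_insert hjT] at h5
    exact (mul_dvd_mul_iff_left (hprime j).ne_zero).1 h5
  rw [← Finset.prod_fiberwise_of_maps_to (s := cᶜ) (t := c) (g := r) (fun i _ => hrc i)]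
  refine Finset.prod_dvd_of_isRelPrime ?_ hfib
  intro j hj j' hj' hne
  refine IsRelPrime.prod_left fun i hi => IsRelPrime.prod_right fun i' hi' => hrel i i' ?_
  rw [(Finset.mem_filter.1 hi).2, (Finset.mem_filter.1 hi').2]
  exact hne

end Pool.Agent.H27.GR
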